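import Pool.Agent.Helper2_Pak.Stmts
import Pool.Agent.Helper60_Pack.C7

/-!
# PAK1 module C4 (helper44)
-/

namespace Pool.Agent.Helper2_Pak.H44

open Pool.Agent.Helper2_Pack (Motion)
open Complex

theorem c4 (hS2 : S2Stmt) : C4Stmt := by
  intro t e a k g ht0 ht1 he0 he1 hnear
  obtain ⟨hk, hm1, hm2, hu⟩ := hnear
  have ht2 : t ≤ 1 / 1000 := ht1.trans (by norm_num)
  have ht3 : t ^ 2 ≤ t / 1000 := by nlinarith
  have ht4 : t ^ 3 ≤ t / 1000 := by nlinarith [mul_nonneg ht0.le ht0.le]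
  have hunit : (starRingEnd ℂ) g.u * g.u = 1 := by
    rw [mul_comm, Complex.mul_conj, Complex.normSq_eq_norm_sq, g.unit]
    norm_num
  obtain ⟨a1, a2⟩ := abs_le.1 hm1
  obtain ⟨a3, a4⟩ := abs_le.1 hm2
  rw [Complex.sub_re] at a1 a2
  rw [Complex.sub_im] at a3 a4
  constructor
  · intro z h1 h2 h3 h4
    rw [Complex.sub_re] at h1 h2
    rw [Complex.sub_im] at h3 h4
    obtain ⟨k', hk', hu'⟩ := Helper60_Pack.conj_near hk hu
    have hR1 : |(z - g.v).re| ≤ 1 / 2 - 2 * t - e := by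
      rw [Complex.sub_re, abs_le]
      constructor <;> linarith
    have hR2 : |(z - g.v).im| ≤ 1 / 2 - 2 * t - e := by
      rw [Complex.sub_im, abs_le]
      constructor <;> linarith
    obtain ⟨h6, h7⟩ := Helper60_Pack.rot_bound hk' hu' hR1 hR2
      (Helper60_Pack.norm_le_one_of (by linarith) (by linarith))
    unfold InCore
    exact ⟨by linarith, by linarith⟩
  · rintro z ⟨ζ, hζ, rfl⟩
    obtain ⟨c1, c2, -⟩ := (hS2 t ht0 ht1).1 ζ hζ
    have hhh : hh t + t ^ 3 ≤ 1 / 2 + t := by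
      unfold hh
      linarith
    have h5 : g.app ζ = g.v + g.u * ζ := by
      rw [Motion.app]
      ring
    have hR1 : |ζ.re| ≤ 1 / 2 + t := by linarith
    have hR2 : |ζ.im| ≤ 1 / 2 + t := by linarith
    obtain ⟨h6, h7⟩ := Helper60_Pack.rot_bound hk hu hR1 hR2
      (Helper60_Pack.norm_le_one_of (by linarith) (by linarith))
    obtain ⟨b1, b2⟩ := abs_le.1 h6
    obtain ⟨b3, b4⟩ := abs_le.1 h7
    rw [h5, Complex.sub_re, Complex.sub_im, Complex.add_re, Complex.add_im]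
    refine ⟨by linarith, by linarith, by linarith, by linarith⟩

end Pool.Agent.Helper2_Pak.H44
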