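import Pool.Agent.Helper2_Pak.Stmts

/-!
# PAK1 module G6 (helper44)
-/

namespace Pool.Agent.Helper2_Pak.H44

open Pool.Agent.Helper2_Pack (Motion)

theorem ramp_le (t x : ℝ) : ramp t x ≤ 1 := min_le_left _ _

theorem dent_le {t : ℝ} (ht : 0 < t) (e : ℝ) : dent t e ≤ 2 * t ^ 3 := by
  unfold dent
  refine max_le (by positivity) ?_
  have h1 : 0 ≤ 2 * t ^ 3 := by positivity
  have h2 := abs_nonneg e
  nlinarith

theorem trap_le (t y : ℝ) : trap t y ≤ 1 := min_le_left _ _

theorem isL_iff {k : Kind} (h : k.isL = true) : ∃ σ, k = .pL σ := by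
  cases k <;> simp_all [Kind.isL]

theorem eL_bd (σ : Bool) : 14 / 32 ≤ eL σ ∧ eL σ ≤ 18 / 32 := by
  unfold eL
  split_ifs <;> norm_num

theorem g6 (hG1 : G1Stmt) : G6Stmt := by
  intro t G c hOK hS hc hL z hz hz1 hz2
  obtain ⟨ht1, -, -, hD, -⟩ := hG1 t G hOK hS
  have ht0 := hS.pos
  have ht2 : t ≤ 1 / 1000 := ht1.trans (by norm_num)
  have ht3 : t ^ 3 ≤ t / 1000 := by
    have : t ^ 2 ≤ 1 / 1000 := by nlinarith
    nlinarith [mul_nonneg ht0.le ht0.le]
  have ht4 : t ^ 4 ≤ t / 1000 := by
    have h1 : t ^ 4 = t ^ 3 * t := by ring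
    have h2 : 0 ≤ t ^ 3 := by positivity
    rw [h1]
    nlinarith
  obtain ⟨σ, hσ⟩ := isL_iff hL
  obtain ⟨hc1, hσ'⟩ := hOK.portL c σ hc hσ
  obtain ⟨e1, e2⟩ := eL_bd σ
  have hsig : (G.kd c).sig = σ := by rw [hσ]; rfl
  have htop : G.top c = G.N := by unfold Lay.top; rw [hσ]; rfl
  have htop' : G.top (c + 1) = G.N := by unfold Lay.top; rw [hσ']; rfl
  rw [hsig]
  rcases hz with hz | hz
  · obtain ⟨c', hz⟩ := Set.mem_iUnion.1 hz
    obtain ⟨b1, b2, -, b4⟩ := hz
    have hc' : (c' : ℕ) = c ∨ (c' : ℕ) = c + 1 := by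
      have k1 : ((c' : ℕ) : ℝ) < (c : ℝ) + 2 := by linarith
      have k2 : ((c : ℕ) : ℝ) < ((c' : ℕ) : ℝ) + 1 := by linarith
      have k3 : (c' : ℕ) < c + 2 := by exact_mod_cast k1
      have k4 : c < (c' : ℕ) + 1 := by exact_mod_cast k2
      omega
    rcases hc' with hc' | hc'
    · rw [hc'] at b1 b2 b4
      unfold Lay.locCe at b4
      rw [if_pos hL, hsig] at b4
      split_ifs at b4 with hx
      · have k1 := ramp_le t (z.re - c)
        have k2 := dent_le ht0 (z.re - c - 1 / 4)
        have k3 : t ^ 4 * ramp t (z.re - c) ≤ t ^ 4 := by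
          have : 0 ≤ t ^ 4 := by positivity
          nlinarith
        refine ⟨by linarith, fun h => ?_⟩
        exfalso
        linarith
      · push Not at hx
        refine ⟨b4.trans (min_le_left _ _), fun _ => ⟨by linarith, by linarith⟩⟩
    · rw [hc'] at b1 b2 b4
      push_cast at b1 b2 b4
      unfold Lay.locCe at b4
      have q1 : (G.kd (c + 1)).isL = false := by rw [hσ']; rfl
      have q2 : (G.kd (c + 1)).isR = true := by rw [hσ']; rfl
      have q3 : (G.kd (c + 1)).sig = σ := by rw [hσ']; rfl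
      rw [q1, q2, q3] at b4
      simp only [Bool.false_eq_true, if_false, if_true] at b4
      split_ifs at b4 with hx
      · refine ⟨b4.trans (min_le_left _ _), fun _ => ⟨by linarith, by linarith⟩⟩
      · have k1 := ramp_le t (z.re - (c + 1))
        have k2 := dent_le ht0 (z.re - (c + 1) - 3 / 4)
        have k3 : t ^ 4 * ramp t (z.re - (c + 1)) ≤ t ^ 4 := by
          have : 0 ≤ t ^ 4 := by positivity
          nlinarith
        refine ⟨by linarith, fun h => ?_⟩
        exfalso
        linarith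
  · exfalso
    obtain ⟨X, r, -, b1, b2⟩ := hz
    rcases b2 with ⟨w, b2, b3⟩ | ⟨w, b2, b3⟩
    · have k0 := trap_le t (z.im - r)
      have k1 : t ^ 3 * trap t (z.im - r) ≤ t ^ 3 := by
        have : 0 ≤ t ^ 3 := by positivity
        nlinarith
      have hX : X = c + 1 := by
        have k2 : ((c : ℕ) : ℝ) < X := by linarith
        have k3 : (X : ℝ) < (c : ℝ) + 2 := by linarith
        have k4 : c < X := by exact_mod_cast k2
        have k5 : X < c + 2 := by exact_mod_cast k3
        omega
      subst hX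
      unfold Lay.wallL Lay.pres at w
      rw [htop', Nat.add_sub_cancel, htop] at w
      simp at w
      omega
    · have k0 := trap_le t (z.im - r)
      have k1 : G.rw t X r * trap t (z.im - r) ≤ t / 32 := by
        have h1 := (hD X r).2.2.1
        have h2 := (hD X r).2.2.2
        nlinarith
      have hX : X = c + 1 := by
        have k2 : ((c : ℕ) : ℝ) < X := by linarith
        have k3 : (X : ℝ) < (c : ℝ) + 2 := by linarith
        have k4 : c < X := by exact_mod_cast k2
        have k5 : X < c + 2 := by exact_mod_cast k3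
        omega
      subst hX
      unfold Lay.wallR Lay.pres at w
      rw [htop', Nat.add_sub_cancel, htop] at w
      simp at w
      omega

end Pool.Agent.Helper2_Pak.H44
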